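import Mathlib
import Pool.Agent.H629R2.EU.Defs

set_option autoImplicit false

/-! Hodograph construction of entire solutions of `u_11 u_22 = 1`: statements. -/

namespace Pool.Agent.H629R2.EV

open Set Pool.Agent.H629R2.EU

/-- PL: the Poincaré lemma in the plane. -/
def PL_stmt : Prop :=
  ∀ P Q : ℝ × ℝ → ℝ, ContDiff ℝ 1 P → ContDiff ℝ 1 Q → (∀ p, dy P p = dx Q p) →
    ∃ w : ℝ × ℝ → ℝ, ContDiff ℝ 2 w ∧ dx w = P ∧ dy w = Q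

/-- POT: a pair `(φ, S)` solving the first order system gives an entire solution. -/
def POT_stmt : Prop :=
  ∀ φ S : ℝ × ℝ → ℝ, ContDiff ℝ 1 φ → ContDiff ℝ 1 S →
    (∀ p, dx S p = Real.exp (φ p) * dy φ p) →
    (∀ p, dy S p = -(Real.exp (-φ p) * dx φ p)) →
    ∃ u : ℝ × ℝ → ℝ, EntireSol u ∧ (∀ p, dx (dx u) p = Real.exp (φ p)) ∧
      (∀ p, dx (dy u) p = S p) ∧ (∀ p, dy (dy u) p = Real.exp (-φ p))

/-- DIF: a bijective `C^1` map of the plane with invertible derivative has a `C^1` inverse. -/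
def DIF_stmt : Prop :=
  ∀ X Y : ℝ × ℝ → ℝ, ContDiff ℝ 1 X → ContDiff ℝ 1 Y →
    (∀ q, dx X q * dy Y q - dy X q * dx Y q ≠ 0) →
    Function.Bijective (fun q : ℝ × ℝ => (X q, Y q)) →
    ∃ φ S : ℝ × ℝ → ℝ, ContDiff ℝ 1 φ ∧ ContDiff ℝ 1 S ∧
      (∀ q, φ (X q, Y q) = q.1) ∧ (∀ q, S (X q, Y q) = q.2) ∧
      (∀ p, (X (φ p, S p), Y (φ p, S p)) = p)

/-- HOD: hodograph inversion of the linear system. -/
def HOD_stmt : Prop :=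
  ∀ X Y : ℝ × ℝ → ℝ, ContDiff ℝ 1 X → ContDiff ℝ 1 Y →
    (∀ q : ℝ × ℝ, dx X q = -(Real.exp (-q.1) * dy Y q)) →
    (∀ q : ℝ × ℝ, dx Y q = Real.exp q.1 * dy X q) →
    (∀ q, 0 < dy X q) → Function.Bijective (fun q : ℝ × ℝ => (X q, Y q)) →
    ∃ φ S : ℝ × ℝ → ℝ, ContDiff ℝ 1 φ ∧ ContDiff ℝ 1 S ∧
      (∀ q, φ (X q, Y q) = q.1) ∧ (∀ q, S (X q, Y q) = q.2) ∧
      (∀ p, dx S p = Real.exp (φ p) * dy φ p) ∧
      (∀ p, dy S p = -(Real.exp (-φ p) * dx φ p))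

/-- First hodograph coordinate of the family: the variable is `(s, t) = (log u_11, u_12)`. -/
noncomputable def famX (n : ℕ) (c0 c1 : ℝ) (c ν ω : Fin n → ℝ) (q : ℝ × ℝ) : ℝ :=
  c0 * q.2 + c1 * (q.2 * Real.exp (-q.1)) +
    ∑ j, c j / ω j * Real.exp (-(ν j * q.1) + ω j * q.2)

/-- Second hodograph coordinate of the family. -/
noncomputable def famY (n : ℕ) (c0 c1 : ℝ) (c ν ω : Fin n → ℝ) (q : ℝ × ℝ) : ℝ :=
  c0 * Real.exp q.1 + c1 * (q.1 + q.2 ^ 2 / 2) +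
    ∑ j, c j / (1 - ν j) * Real.exp ((1 - ν j) * q.1 + ω j * q.2)

/-- Admissible parameters. -/
def Adm (n : ℕ) (c0 c1 : ℝ) (c ν ω : Fin n → ℝ) : Prop :=
  0 ≤ c0 ∧ 0 < c1 ∧ (∀ j, 0 ≤ c j) ∧ (∀ j, 0 < ν j ∧ ν j < 1) ∧
    ∀ j, ω j ^ 2 = ν j * (1 - ν j)

/-- SYS: the family solves the linear system. -/
def SYS_stmt : Prop :=
  ∀ (n : ℕ) (c0 c1 : ℝ) (c ν ω : Fin n → ℝ), Adm n c0 c1 c ν ω →
    ContDiff ℝ 1 (famX n c0 c1 c ν ω) ∧ ContDiff ℝ 1 (famY n c0 c1 c ν ω) ∧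
    (∀ q : ℝ × ℝ, dy (famX n c0 c1 c ν ω) q =
      c0 + c1 * Real.exp (-q.1) + ∑ j, c j * Real.exp (-(ν j * q.1) + ω j * q.2)) ∧
    (∀ q : ℝ × ℝ, dx (famX n c0 c1 c ν ω) q =
      -(Real.exp (-q.1) * dy (famY n c0 c1 c ν ω) q)) ∧
    (∀ q : ℝ × ℝ, dx (famY n c0 c1 c ν ω) q =
      Real.exp q.1 * dy (famX n c0 c1 c ν ω) q)

/-- BIJ: the hodograph map of the family is a bijection of the plane. -/
def BIJ_stmt : Prop :=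
  ∀ (n : ℕ) (c0 c1 : ℝ) (c ν ω : Fin n → ℝ), Adm n c0 c1 c ν ω →
    Function.Bijective (fun q : ℝ × ℝ => (famX n c0 c1 c ν ω q, famY n c0 c1 c ν ω q))

/-- IND: the parameters are determined by the function `famX`. -/
def IND_stmt : Prop :=
  ∀ (n : ℕ) (c0 c1 c0' c1' : ℝ) (c c' ν ω : Fin n → ℝ), Adm n c0 c1 c ν ω →
    Adm n c0' c1' c' ν ω → Function.Injective (fun j => (ν j, ω j)) →
    famX n c0 c1 c ν ω = famX n c0' c1' c' ν ω → c0 = c0' ∧ c1 = c1' ∧ c = c'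

end Pool.Agent.H629R2.EV
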