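import Mathlib
import Pool.Agent.H629R2.EV.Stubs

set_option autoImplicit false

/-! BIJ: the hodograph map of the family is a bijection of the plane (helper896).

The proof of injectivity uses a monotonicity: with `σ = -exp (-s)` the map `(σ, t) ↦ (Y, X)` is
strictly monotone on the half plane, `(σ' - σ) (Y' - Y) + (t' - t) (X' - X) > 0`. -/

namespace Pool.Agent.H629R2.EV

open Set Pool.Agent.H629R2.EU

namespace BIJaux

theorem basic (ν ω s t s' t' : ℝ) (h0 : 0 < ν) (h1 : ν < 1) (hω : ω ^ 2 = ν * (1 - ν)) :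
    0 ≤ (Real.exp (-s) - Real.exp (-s')) * (1 / (1 - ν) * Real.exp ((1 - ν) * s' + ω * t') -
        1 / (1 - ν) * Real.exp ((1 - ν) * s + ω * t)) +
      (t' - t) * (1 / ω * Real.exp (-(ν * s') + ω * t') -
        1 / ω * Real.exp (-(ν * s) + ω * t)) := by
  have hω0 : ω ≠ 0 := by
    intro h
    rw [h] at hω
    have : 0 < ν * (1 - ν) := mul_pos h0 (by linarith)
    linarith [hω]
  have hν1 : 1 - ν ≠ 0 := by linarith
  have hrel : ω / (1 - ν) = ν / ω := by
    rw [div_eq_div_iff hν1 hω0, ← sq, hω]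
  set z := Real.exp (-s) with hz
  set z' := Real.exp (-s') with hz'
  have hzp : 0 < z := Real.exp_pos _
  have hzp' : 0 < z' := Real.exp_pos _
  let Z : ℝ → ℝ := fun r => z + r * (z' - z)
  have hZ : ∀ r ∈ Icc (0 : ℝ) 1, 0 < Z r := by
    intro r hr
    have : Z r = (1 - r) * z + r * z' := by simp only [Z]; ring
    rw [this]
    rcases eq_or_lt_of_le hr.1 with h | h
    · rw [← h]; simpa using hzp
    · have h2 : 0 ≤ (1 - r) * z := mul_nonneg (by linarith [hr.2]) hzp.le
      have h3 : 0 < r * z' := mul_pos h hzp'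
      linarith
  let φ : ℝ → ℝ := fun r =>
    -(z' - z) * (1 / (1 - ν) * Real.exp ((ν - 1) * Real.log (Z r) + ω * (t + r * (t' - t)))) +
      (t' - t) * (1 / ω * Real.exp (ν * Real.log (Z r) + ω * (t + r * (t' - t))))
  have hZd : ∀ r, HasDerivAt Z (z' - z) r := by
    intro r
    have h := ((hasDerivAt_id' r).mul_const (z' - z)).const_add z
    rw [one_mul] at h
    exact h
  have hτd : ∀ r, HasDerivAt (fun r : ℝ => ω * (t + r * (t' - t))) (ω * (t' - t)) r := by
    intro r
    have h := (((hasDerivAt_id' r).mul_const (t' - t)).const_add t).const_mul ω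
    rw [one_mul] at h
    exact h
  have hφd : ∀ r ∈ Icc (0 : ℝ) 1, HasDerivAt φ
      (-(z' - z) * (1 / (1 - ν) *
        (Real.exp ((ν - 1) * Real.log (Z r) + ω * (t + r * (t' - t))) *
          ((ν - 1) * ((z' - z) / Z r) + ω * (t' - t)))) +
      (t' - t) * (1 / ω * (Real.exp (ν * Real.log (Z r) + ω * (t + r * (t' - t))) *
          (ν * ((z' - z) / Z r) + ω * (t' - t))))) r := by
    intro r hr
    have hL : HasDerivAt (fun r => Real.log (Z r)) ((z' - z) / Z r) r :=
      (hZd r).log (hZ r hr).ne'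
    have e1 := (((hL.const_mul (ν - 1)).add (hτd r)).exp.const_mul (1 / (1 - ν))).const_mul
      (-(z' - z))
    have e2 := (((hL.const_mul ν).add (hτd r)).exp.const_mul (1 / ω)).const_mul (t' - t)
    exact e1.add e2
  have hmono : MonotoneOn φ (Icc 0 1) := by
    apply monotoneOn_of_deriv_nonneg (convex_Icc 0 1)
    · intro r hr
      exact (hφd r hr).continuousAt.continuousWithinAt
    · intro r hr
      exact (hφd r (interior_subset hr)).differentiableAt.differentiableWithinAt
    · intro r hr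
      have hr' := interior_subset hr
      rw [(hφd r hr').deriv]
      have hZr := hZ r hr'
      have eE : Real.exp (ν * Real.log (Z r) + ω * (t + r * (t' - t))) =
          Z r * Real.exp ((ν - 1) * Real.log (Z r) + ω * (t + r * (t' - t))) := by
        have : ν * Real.log (Z r) + ω * (t + r * (t' - t)) = Real.log (Z r) +
            ((ν - 1) * Real.log (Z r) + ω * (t + r * (t' - t))) := by ring
        rw [this, Real.exp_add, Real.exp_log hZr]
      rw [eE]
      set E := Real.exp ((ν - 1) * Real.log (Z r) + ω * (t + r * (t' - t))) with hE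
      have hEp : 0 < E := Real.exp_pos _
      have e3 : -(z' - z) * (1 / (1 - ν) * (E * ((ν - 1) * ((z' - z) / Z r) + ω * (t' - t)))) +
          (t' - t) * (1 / ω * (Z r * E * (ν * ((z' - z) / Z r) + ω * (t' - t)))) =
          E * ((z' - z) ^ 2 / Z r + Z r * (t' - t) ^ 2 +
            (z' - z) * (t' - t) * (ν / ω - ω / (1 - ν))) := by
        field_simp
        ring
      rw [e3, hrel, sub_self, mul_zero, add_zero]
      positivity
  have h2 := hmono (left_mem_Icc.2 zero_le_one) (right_mem_Icc.2 zero_le_one) zero_le_one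
  have z0 : Z 0 = z := by simp [Z]
  have z1 : Z 1 = z' := by simp [Z]
  have p0 : φ 0 = -(z' - z) * (1 / (1 - ν) * Real.exp ((1 - ν) * s + ω * t)) +
      (t' - t) * (1 / ω * Real.exp (-(ν * s) + ω * t)) := by
    simp only [φ, z0, hz, Real.log_exp]
    congr 3
    · congr 1
      ring
    · congr 1
      ring
  have p1 : φ 1 = -(z' - z) * (1 / (1 - ν) * Real.exp ((1 - ν) * s' + ω * t')) +
      (t' - t) * (1 / ω * Real.exp (-(ν * s') + ω * t')) := by
    simp only [φ, z1, hz', Real.log_exp]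
    congr 3
    · congr 1
      ring
    · congr 1
      ring
  rw [p0, p1] at h2
  linarith

variable {n : ℕ} {c0 c1 : ℝ} {c ν ω : Fin n → ℝ}

theorem pairing (hA : Adm n c0 c1 c ν ω) (q q' : ℝ × ℝ) (hne : q ≠ q') :
    0 < (Real.exp (-q.1) - Real.exp (-q'.1)) *
        (famY n c0 c1 c ν ω q' - famY n c0 c1 c ν ω q) +
      (q'.2 - q.2) * (famX n c0 c1 c ν ω q' - famX n c0 c1 c ν ω q) := by
  obtain ⟨s, t⟩ := q
  obtain ⟨s', t'⟩ := q'
  obtain ⟨hc0, hc1, hc, hν, hω⟩ := hA
  simp only
  have key : (Real.exp (-s) - Real.exp (-s')) *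
        (famY n c0 c1 c ν ω (s', t') - famY n c0 c1 c ν ω (s, t)) +
      (t' - t) * (famX n c0 c1 c ν ω (s', t') - famX n c0 c1 c ν ω (s, t)) =
      c0 * ((Real.exp (-s) - Real.exp (-s')) * (Real.exp s' - Real.exp s) + (t' - t) ^ 2) +
      c1 * ((Real.exp (-s) - Real.exp (-s')) * (s' - s) +
        (Real.exp (-s) + Real.exp (-s')) / 2 * (t' - t) ^ 2) +
      ∑ j, c j * ((Real.exp (-s) - Real.exp (-s')) *
        (1 / (1 - ν j) * Real.exp ((1 - ν j) * s' + ω j * t') -
        1 / (1 - ν j) * Real.exp ((1 - ν j) * s + ω j * t)) +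
      (t' - t) * (1 / ω j * Real.exp (-(ν j * s') + ω j * t') -
        1 / ω j * Real.exp (-(ν j * s) + ω j * t))) := by
    have e1 : ∑ j, c j * ((Real.exp (-s) - Real.exp (-s')) *
        (1 / (1 - ν j) * Real.exp ((1 - ν j) * s' + ω j * t') -
        1 / (1 - ν j) * Real.exp ((1 - ν j) * s + ω j * t)) +
      (t' - t) * (1 / ω j * Real.exp (-(ν j * s') + ω j * t') -
        1 / ω j * Real.exp (-(ν j * s) + ω j * t))) =
        (Real.exp (-s) - Real.exp (-s')) *
          ((∑ j, c j / (1 - ν j) * Real.exp ((1 - ν j) * s' + ω j * t')) -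
            ∑ j, c j / (1 - ν j) * Real.exp ((1 - ν j) * s + ω j * t)) +
        (t' - t) * ((∑ j, c j / ω j * Real.exp (-(ν j * s') + ω j * t')) -
            ∑ j, c j / ω j * Real.exp (-(ν j * s) + ω j * t)) := by
      rw [← Finset.sum_sub_distrib, ← Finset.sum_sub_distrib, Finset.mul_sum, Finset.mul_sum,
        ← Finset.sum_add_distrib]
      refine Finset.sum_congr rfl fun j _ => ?_
      ring
    rw [e1]
    unfold famX famY
    simp only
    ring
  rw [key]
  have g1 : 0 ≤ (Real.exp (-s) - Real.exp (-s')) * (Real.exp s' - Real.exp s) := by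
    rcases le_total s s' with h | h
    · exact mul_nonneg (sub_nonneg.2 (Real.exp_le_exp.2 (by linarith)))
        (sub_nonneg.2 (Real.exp_le_exp.2 h))
    · exact mul_nonneg_of_nonpos_of_nonpos (sub_nonpos.2 (Real.exp_le_exp.2 (by linarith)))
        (sub_nonpos.2 (Real.exp_le_exp.2 h))
  have g2 : 0 < (Real.exp (-s) - Real.exp (-s')) * (s' - s) +
      (Real.exp (-s) + Real.exp (-s')) / 2 * (t' - t) ^ 2 := by
    have h3 : 0 < (Real.exp (-s) + Real.exp (-s')) / 2 := by positivity
    rcases lt_trichotomy s s' with h | h | h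
    · have h4 : 0 < (Real.exp (-s) - Real.exp (-s')) * (s' - s) :=
        mul_pos (sub_pos.2 (Real.exp_lt_exp.2 (by linarith))) (sub_pos.2 h)
      have h5 : 0 ≤ (Real.exp (-s) + Real.exp (-s')) / 2 * (t' - t) ^ 2 := by positivity
      linarith
    · subst h
      have h4 : t' - t ≠ 0 := by
        intro h5
        apply hne
        rw [sub_eq_zero.1 h5]
      have h5 : 0 < (t' - t) ^ 2 := by positivity
      have h6 := mul_pos h3 h5
      simpa using h6
    · have h4 : 0 < (Real.exp (-s) - Real.exp (-s')) * (s' - s) :=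
        mul_pos_of_neg_of_neg (sub_neg.2 (Real.exp_lt_exp.2 (by linarith))) (sub_neg.2 h)
      have h5 : 0 ≤ (Real.exp (-s) + Real.exp (-s')) / 2 * (t' - t) ^ 2 := by positivity
      linarith
  have g3 := mul_nonneg hc0 (add_nonneg g1 (sq_nonneg (t' - t)))
  have g4 := mul_pos hc1 g2
  have g5 : 0 ≤ ∑ j, c j * ((Real.exp (-s) - Real.exp (-s')) *
        (1 / (1 - ν j) * Real.exp ((1 - ν j) * s' + ω j * t') -
        1 / (1 - ν j) * Real.exp ((1 - ν j) * s + ω j * t)) +
      (t' - t) * (1 / ω j * Real.exp (-(ν j * s') + ω j * t') -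
        1 / ω j * Real.exp (-(ν j * s) + ω j * t))) :=
    Finset.sum_nonneg fun j _ =>
      mul_nonneg (hc j) (basic (ν j) (ω j) s t s' t' (hν j).1 (hν j).2 (hω j))
  linarith

theorem X_mono (hA : Adm n c0 c1 c ν ω) (s : ℝ) :
    StrictMono (fun t => famX n c0 c1 c ν ω (s, t)) := by
  intro t t' h
  have h1 := pairing hA (s, t) (s, t') (by
    intro h2
    rw [Prod.mk.injEq] at h2
    exact absurd h2.2 h.ne)
  simp only [sub_self, zero_mul, zero_add] at h1
  simp only
  by_contra h2
  have h3 : famX n c0 c1 c ν ω (s, t') - famX n c0 c1 c ν ω (s, t) ≤ 0 := by linarith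
  have h4 := mul_nonpos_of_nonneg_of_nonpos (sub_pos.2 h).le h3
  linarith

theorem X_cont : Continuous (famX n c0 c1 c ν ω) := by
  unfold famX
  fun_prop

theorem Y_cont : Continuous (famY n c0 c1 c ν ω) := by
  unfold famY
  fun_prop

theorem omega_ne (hA : Adm n c0 c1 c ν ω) (j : Fin n) : ω j ≠ 0 := by
  obtain ⟨-, -, -, hν, hω⟩ := hA
  intro h
  have h1 := hω j
  rw [h] at h1
  have : 0 < ν j * (1 - ν j) := mul_pos (hν j).1 (by linarith [(hν j).2])
  linarith [h1]

/-- bound of one term -/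
theorem term_lower (cj νj ωj s t : ℝ) (hc : 0 ≤ cj) (hω : ωj ≠ 0) (ht : 0 ≤ t) :
    -(cj / |ωj| * Real.exp (-(νj * s))) ≤ cj / ωj * Real.exp (-(νj * s) + ωj * t) := by
  rcases lt_or_gt_of_ne hω with h | h
  · rw [abs_of_neg h, div_neg, neg_mul, neg_neg]
    have h1 : cj / ωj ≤ 0 := div_nonpos_of_nonneg_of_nonpos hc h.le
    apply mul_le_mul_of_nonpos_left _ h1
    apply Real.exp_le_exp.2
    nlinarith
  · rw [abs_of_pos h]
    have h1 : 0 ≤ cj / ωj := by positivity
    have h2 : 0 ≤ cj / ωj * Real.exp (-(νj * s)) := by positivity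
    have h3 : 0 ≤ cj / ωj * Real.exp (-(νj * s) + ωj * t) := by positivity
    linarith

theorem term_upper (cj νj ωj s t : ℝ) (hc : 0 ≤ cj) (hω : ωj ≠ 0) (ht : t ≤ 0) :
    cj / ωj * Real.exp (-(νj * s) + ωj * t) ≤ cj / |ωj| * Real.exp (-(νj * s)) := by
  have h := term_lower cj νj (-ωj) s (-t) hc (neg_ne_zero.2 hω) (by linarith)
  rw [abs_neg, div_neg] at h
  have e : -ωj * -t = ωj * t := by ring
  rw [e] at h
  linarith

theorem X_lower (hA : Adm n c0 c1 c ν ω) (s t : ℝ) (ht : 0 ≤ t) :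
    c1 * (t * Real.exp (-s)) - ∑ j, c j / |ω j| * Real.exp (-(ν j * s)) ≤
      famX n c0 c1 c ν ω (s, t) := by
  unfold famX
  simp only
  have h1 : 0 ≤ c0 * t := mul_nonneg hA.1 ht
  have h2 : -∑ j, c j / |ω j| * Real.exp (-(ν j * s)) ≤
      ∑ j, c j / ω j * Real.exp (-(ν j * s) + ω j * t) := by
    rw [← Finset.sum_neg_distrib]
    exact Finset.sum_le_sum fun j _ =>
      term_lower (c j) (ν j) (ω j) s t (hA.2.2.1 j) (omega_ne hA j) ht
  linarith

theorem X_upper (hA : Adm n c0 c1 c ν ω) (s t : ℝ) (ht : t ≤ 0) :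
    famX n c0 c1 c ν ω (s, t) ≤
      c1 * (t * Real.exp (-s)) + ∑ j, c j / |ω j| * Real.exp (-(ν j * s)) := by
  unfold famX
  simp only
  have h1 : c0 * t ≤ 0 := mul_nonpos_of_nonneg_of_nonpos hA.1 ht
  have h2 : ∑ j, c j / ω j * Real.exp (-(ν j * s) + ω j * t) ≤
      ∑ j, c j / |ω j| * Real.exp (-(ν j * s)) :=
    Finset.sum_le_sum fun j _ =>
      term_upper (c j) (ν j) (ω j) s t (hA.2.2.1 j) (omega_ne hA j) ht
  linarith

theorem X_surj (hA : Adm n c0 c1 c ν ω) (s x : ℝ) : ∃ t, famX n c0 c1 c ν ω (s, t) = x := by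
  have hc1 := hA.2.1
  set B := ∑ j, c j / |ω j| * Real.exp (-(ν j * s)) with hB
  have hB0 : 0 ≤ B := Finset.sum_nonneg fun j _ =>
    mul_nonneg (div_nonneg (hA.2.2.1 j) (abs_nonneg _)) (Real.exp_pos _).le
  have hcont : Continuous (fun t => famX n c0 c1 c ν ω (s, t)) :=
    X_cont.comp (by fun_prop)
  have hE : 0 < c1 * Real.exp (-s) := by positivity
  have hr := mem_range_of_exists_le_of_exists_ge hcont (c := x)
    ⟨-((B + |x|) / (c1 * Real.exp (-s))), by
      have h0 : -((B + |x|) / (c1 * Real.exp (-s))) ≤ 0 := by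
        rw [neg_nonpos]; positivity
      refine (X_upper hA s _ h0).trans ?_
      have e : c1 * (-((B + |x|) / (c1 * Real.exp (-s))) * Real.exp (-s)) = -(B + |x|) := by
        field_simp
      rw [e]
      linarith [neg_abs_le x]⟩
    ⟨(B + |x|) / (c1 * Real.exp (-s)), by
      have h0 : 0 ≤ (B + |x|) / (c1 * Real.exp (-s)) := by positivity
      refine le_trans ?_ (X_lower hA s _ h0)
      have e : c1 * ((B + |x|) / (c1 * Real.exp (-s)) * Real.exp (-s)) = B + |x| := by
        field_simp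
      rw [e]
      linarith [le_abs_self x]⟩
  obtain ⟨t, ht⟩ := hr
  exact ⟨t, ht⟩

/-- bound of `t` for `s ≤ 0` -/
theorem T_bound (hA : Adm n c0 c1 c ν ω) (s t x : ℝ) (hs : s ≤ 0)
    (h : famX n c0 c1 c ν ω (s, t) = x) : |t| ≤ (|x| + ∑ j, c j / |ω j|) / c1 := by
  have hc1 := hA.2.1
  set B := ∑ j, c j / |ω j| * Real.exp (-(ν j * s)) with hB
  have h1 : c1 * (|t| * Real.exp (-s)) ≤ |x| + B := by
    rcases le_total 0 t with h0 | h0
    · have h2 := X_lower hA s t h0
      rw [h] at h2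
      rw [abs_of_nonneg h0]
      linarith [le_abs_self x]
    · have h2 := X_upper hA s t h0
      rw [h] at h2
      rw [abs_of_nonpos h0]
      have : c1 * (-t * Real.exp (-s)) = -(c1 * (t * Real.exp (-s))) := by ring
      rw [this]
      linarith [neg_abs_le x]
  have h2 : |x| + B ≤ (|x| + ∑ j, c j / |ω j|) * Real.exp (-s) := by
    have hE : 1 ≤ Real.exp (-s) := Real.one_le_exp (by linarith)
    rw [add_mul, hB, Finset.sum_mul]
    apply add_le_add
    · exact le_mul_of_one_le_right (abs_nonneg x) hE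
    · refine Finset.sum_le_sum fun j _ => ?_
      apply mul_le_mul_of_nonneg_left _ (div_nonneg (hA.2.2.1 j) (abs_nonneg _))
      apply Real.exp_le_exp.2
      have := (hA.2.2.2.1 j).2
      nlinarith
  rw [le_div_iff₀ hc1]
  have hEp : 0 < Real.exp (-s) := Real.exp_pos _
  have h3 : (|t| * c1) * Real.exp (-s) ≤ (|x| + ∑ j, c j / |ω j|) * Real.exp (-s) := by
    calc (|t| * c1) * Real.exp (-s) = c1 * (|t| * Real.exp (-s)) := by ring
      _ ≤ _ := h1.trans h2
  exact le_of_mul_le_mul_right h3 hEp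

end BIJaux

open BIJaux in
theorem BIJ_proof : BIJ_stmt := by
  intro n c0 c1 c ν ω hA
  constructor
  · intro q q' h
    by_contra hne
    have h1 := pairing hA q q' hne
    simp only [Prod.mk.injEq] at h
    rw [h.1, h.2] at h1
    simp at h1
  · rintro ⟨x, y⟩
    have hc1 := hA.2.1
    choose T hT using fun s => X_surj hA s x
    have hTc : Continuous T := by
      rw [Metric.continuous_iff]
      intro s0 ε hε
      have hop : IsOpen {s | famX n c0 c1 c ν ω (s, T s0 - ε) < x ∧
          x < famX n c0 c1 c ν ω (s, T s0 + ε)} :=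
        (isOpen_lt (X_cont.comp (by fun_prop)) continuous_const).inter
          (isOpen_lt continuous_const (X_cont.comp (by fun_prop)))
      have hmem : s0 ∈ {s | famX n c0 c1 c ν ω (s, T s0 - ε) < x ∧
          x < famX n c0 c1 c ν ω (s, T s0 + ε)} := by
        constructor
        · have h1 : famX n c0 c1 c ν ω (s0, T s0 - ε) < famX n c0 c1 c ν ω (s0, T s0) :=
            X_mono hA s0 (by linarith)
          rw [hT s0] at h1
          exact h1
        · have h1 : famX n c0 c1 c ν ω (s0, T s0) < famX n c0 c1 c ν ω (s0, T s0 + ε) :=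
            X_mono hA s0 (by linarith)
          rw [hT s0] at h1
          exact h1
      obtain ⟨d, hd, hb⟩ := Metric.isOpen_iff.1 hop s0 hmem
      refine ⟨d, hd, fun s hs => ?_⟩
      obtain ⟨h1, h2⟩ := hb (Metric.mem_ball.2 hs)
      rw [← hT s] at h1 h2
      have h3 : T s0 - ε < T s := (X_mono hA s).lt_iff_lt.1 h1
      have h4 : T s < T s0 + ε := (X_mono hA s).lt_iff_lt.1 h2
      rw [Real.dist_eq, abs_lt]
      constructor <;> linarith
    have hg : Continuous (fun s => famY n c0 c1 c ν ω (s, T s)) :=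
      Y_cont.comp (continuous_id.prodMk hTc)
    have hν := hA.2.2.2.1
    have hhigh : ∃ s, y ≤ famY n c0 c1 c ν ω (s, T s) := by
      refine ⟨|y| / c1, ?_⟩
      unfold famY
      simp only
      have h1 : 0 ≤ c0 * Real.exp (|y| / c1) := mul_nonneg hA.1 (Real.exp_pos _).le
      have h2 : 0 ≤ ∑ j, c j / (1 - ν j) *
          Real.exp ((1 - ν j) * (|y| / c1) + ω j * T (|y| / c1)) :=
        Finset.sum_nonneg fun j _ => mul_nonneg (div_nonneg (hA.2.2.1 j)
          (by linarith [(hν j).2])) (Real.exp_pos _).le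
      have h3 : c1 * (|y| / c1 + T (|y| / c1) ^ 2 / 2) = |y| + c1 * (T (|y| / c1) ^ 2 / 2) := by
        field_simp
      rw [h3]
      have h4 : 0 ≤ c1 * (T (|y| / c1) ^ 2 / 2) := by positivity
      linarith [le_abs_self y]
    have hlow : ∃ s, famY n c0 c1 c ν ω (s, T s) ≤ y := by
      set T0 := (|x| + ∑ j, c j / |ω j|) / c1 with hT0
      set W := c0 + c1 * (T0 ^ 2 / 2) + ∑ j, c j / (1 - ν j) * Real.exp (|ω j| * T0) with hW
      refine ⟨-((|y| + |W|) / c1), ?_⟩
      set s := -((|y| + |W|) / c1) with hs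
      have hs0 : s ≤ 0 := by
        rw [hs, neg_nonpos]; positivity
      have hTb := T_bound hA s (T s) x hs0 (hT s)
      rw [← hT0] at hTb
      have h1 : c0 * Real.exp s ≤ c0 :=
        mul_le_of_le_one_right hA.1 (Real.exp_le_one_iff.2 hs0)
      have h2 : T s ^ 2 ≤ T0 ^ 2 := by
        rw [← sq_abs (T s)]
        exact pow_le_pow_left₀ (abs_nonneg _) hTb 2
      have h3 : ∑ j, c j / (1 - ν j) * Real.exp ((1 - ν j) * s + ω j * T s) ≤
          ∑ j, c j / (1 - ν j) * Real.exp (|ω j| * T0) := by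
        refine Finset.sum_le_sum fun j _ => ?_
        apply mul_le_mul_of_nonneg_left _ (div_nonneg (hA.2.2.1 j) (by linarith [(hν j).2]))
        apply Real.exp_le_exp.2
        have h4 : (1 - ν j) * s ≤ 0 :=
          mul_nonpos_of_nonneg_of_nonpos (by linarith [(hν j).2]) hs0
        have h5 : ω j * T s ≤ |ω j| * T0 := by
          calc ω j * T s ≤ |ω j * T s| := le_abs_self _
            _ = |ω j| * |T s| := abs_mul _ _
            _ ≤ |ω j| * T0 := mul_le_mul_of_nonneg_left hTb (abs_nonneg _)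
        linarith
      have h4 : c1 * s = -(|y| + |W|) := by
        rw [hs]; field_simp
      have h5 : c1 * (T s ^ 2 / 2) ≤ c1 * (T0 ^ 2 / 2) :=
        mul_le_mul_of_nonneg_left (by linarith) hc1.le
      unfold famY
      simp only
      rw [mul_add, h4]
      linarith [le_abs_self W, neg_abs_le y]
    obtain ⟨s, hs⟩ := mem_range_of_exists_le_of_exists_ge hg hlow hhigh
    refine ⟨(s, T s), ?_⟩
    simp only
    rw [hT s]
    simp only at hs
    rw [hs]

end Pool.Agent.H629R2.EV
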