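import Mathlib
import Pool.Agent.H629R2.EU.Defs
import Pool.Agent.H629R2.EV.Stubs

set_option autoImplicit false

namespace Pool.Agent.H629R2.EV

open Set Pool.Agent.H629R2.EU

theorem dx_of_hasFDerivAt {f : ℝ × ℝ → ℝ} {L : ℝ × ℝ →L[ℝ] ℝ} {p : ℝ × ℝ}
    (h : HasFDerivAt f L p) : dx f p = L (1, 0) := by
  simp only [dx, h.fderiv]

theorem IsQuad_dxdx (u : ℝ × ℝ → ℝ) (h : IsQuad u) : ∃ A : ℝ, ∀ p, dx (dx u) p = A := by
  obtain ⟨a, b, c, d, e, f, hf⟩ := h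
  have hu : u = fun p : ℝ × ℝ =>
      a * p.1 ^ 2 + b * (p.1 * p.2) + c * p.2 ^ 2 + d * p.1 + e * p.2 + f := by
    funext p
    exact hf p.1 p.2
  have h1 : dx u = fun p : ℝ × ℝ => 2 * a * p.1 + b * p.2 + d := by
    funext p
    have hfst : HasFDerivAt (fun q : ℝ × ℝ => q.1) (ContinuousLinearMap.fst ℝ ℝ ℝ) p :=
      hasFDerivAt_fst
    have hsnd : HasFDerivAt (fun q : ℝ × ℝ => q.2) (ContinuousLinearMap.snd ℝ ℝ ℝ) p :=
      hasFDerivAt_snd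
    have := (((((hfst.pow 2).const_mul a).add ((hfst.mul hsnd).const_mul b)).add
      ((hsnd.pow 2).const_mul c)).add (hfst.const_mul d)).add (hsnd.const_mul e) |>.add_const f
    rw [hu]
    refine (dx_of_hasFDerivAt this).trans ?_
    simp
    ring
  refine ⟨2 * a, fun p => ?_⟩
  rw [h1]
  have hfst : HasFDerivAt (fun q : ℝ × ℝ => q.1) (ContinuousLinearMap.fst ℝ ℝ ℝ) p :=
    hasFDerivAt_fst
  have hsnd : HasFDerivAt (fun q : ℝ × ℝ => q.2) (ContinuousLinearMap.snd ℝ ℝ ℝ) p :=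
    hasFDerivAt_snd
  have := ((hfst.const_mul (2 * a)).add (hsnd.const_mul b)).add_const d
  refine (dx_of_hasFDerivAt this).trans ?_
  simp

theorem fam_thm (hPOT : POT_stmt) (hHOD : HOD_stmt) (hSYS : SYS_stmt) (hBIJ : BIJ_stmt)
    (n : ℕ) (c0 c1 : ℝ) (c ν ω : Fin n → ℝ) (hA : Adm n c0 c1 c ν ω) :
    Function.Bijective (fun q : ℝ × ℝ => (famX n c0 c1 c ν ω q, famY n c0 c1 c ν ω q)) ∧
    ∃ u : ℝ × ℝ → ℝ, EntireSol u ∧ ¬ IsQuad u ∧
      ∀ s t : ℝ, dx (dx u) (famX n c0 c1 c ν ω (s, t), famY n c0 c1 c ν ω (s, t)) = Real.exp s ∧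
        dx (dy u) (famX n c0 c1 c ν ω (s, t), famY n c0 c1 c ν ω (s, t)) = t := by
  obtain ⟨hX, hY, hXt, hXs, hYs⟩ := hSYS n c0 c1 c ν ω hA
  have hbij := hBIJ n c0 c1 c ν ω hA
  refine ⟨hbij, ?_⟩
  obtain ⟨φ, S, hφ, hS, e1, e2, e3, e4⟩ := hHOD _ _ hX hY hXs hYs (by
    intro q
    rw [hXt q]
    have h1 : 0 ≤ ∑ j, c j * Real.exp (-(ν j * q.1) + ω j * q.2) :=
      Finset.sum_nonneg fun j _ => mul_nonneg (hA.2.2.1 j) (Real.exp_pos _).le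
    have h2 : 0 < c1 * Real.exp (-q.1) := mul_pos hA.2.1 (Real.exp_pos _)
    have h3 := hA.1
    linarith) hbij
  obtain ⟨u, hu, h11, h12, h22⟩ := hPOT φ S hφ hS e3 e4
  have hmain : ∀ s t : ℝ,
      dx (dx u) (famX n c0 c1 c ν ω (s, t), famY n c0 c1 c ν ω (s, t)) = Real.exp s ∧
      dx (dy u) (famX n c0 c1 c ν ω (s, t), famY n c0 c1 c ν ω (s, t)) = t := by
    intro s t
    rw [h11, h12, e1, e2]
    exact ⟨rfl, rfl⟩
  refine ⟨u, hu, ?_, hmain⟩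
  intro hq
  obtain ⟨A, hAq⟩ := IsQuad_dxdx u hq
  have k0 := (hmain 0 0).1
  have k1 := (hmain 1 0).1
  rw [hAq] at k0 k1
  have : Real.exp (0:ℝ) = Real.exp 1 := by rw [← k0, ← k1]
  have := Real.exp_injective this
  norm_num at this

/-- The Hessian of the solution determines the parameters. -/
theorem fam_inj (hIND : IND_stmt)
    (n : ℕ) (c0 c1 c0' c1' : ℝ) (c c' ν ω : Fin n → ℝ)
    (hA : Adm n c0 c1 c ν ω) (hA' : Adm n c0' c1' c' ν ω)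
    (hinj : Function.Injective (fun j => (ν j, ω j)))
    (hbij : Function.Bijective (fun q : ℝ × ℝ => (famX n c0 c1 c ν ω q, famY n c0 c1 c ν ω q)))
    (a b : ℝ × ℝ → ℝ)
    (h : ∀ s t : ℝ, a (famX n c0 c1 c ν ω (s, t), famY n c0 c1 c ν ω (s, t)) = Real.exp s ∧
        b (famX n c0 c1 c ν ω (s, t), famY n c0 c1 c ν ω (s, t)) = t)
    (h' : ∀ s t : ℝ, a (famX n c0' c1' c' ν ω (s, t), famY n c0' c1' c' ν ω (s, t)) = Real.exp s ∧
        b (famX n c0' c1' c' ν ω (s, t), famY n c0' c1' c' ν ω (s, t)) = t) :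
    c0 = c0' ∧ c1 = c1' ∧ c = c' := by
  apply hIND n c0 c1 c0' c1' c c' ν ω hA hA' hinj
  funext q
  obtain ⟨r, hr⟩ := hbij.2 (famX n c0' c1' c' ν ω q, famY n c0' c1' c' ν ω q)
  simp only at hr
  have k := h r.1 r.2
  have k' := h' q.1 q.2
  rw [Prod.mk.eta] at k k'
  rw [hr] at k
  have e1 : r.1 = q.1 := Real.exp_injective (k.1.symm.trans k'.1)
  have e2 : r.2 = q.2 := k.2.symm.trans k'.2
  have : r = q := Prod.ext e1 e2
  rw [this] at hr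
  exact (Prod.ext_iff.1 hr).1

end Pool.Agent.H629R2.EV
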