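import Pool.Agent.H629R2.EV.Stubs

set_option autoImplicit false

namespace Pool.Agent.H629R2.EV.DIFaux

open Filter Topology Pool.Agent.H629R2.EU

theorem exists_equiv (a b c d : ℝ) (h : a * d - b * c ≠ 0) :
    ∃ E : (ℝ × ℝ) ≃L[ℝ] (ℝ × ℝ), ∀ v, E v = (a * v.1 + b * v.2, c * v.1 + d * v.2) := by
  let E : (ℝ × ℝ) ≃ₗ[ℝ] (ℝ × ℝ) :=
    { toFun := fun v => (a * v.1 + b * v.2, c * v.1 + d * v.2)
      invFun := fun w => ((d * w.1 - b * w.2) / (a * d - b * c),
        (a * w.2 - c * w.1) / (a * d - b * c))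
      left_inv := by
        intro v
        ext
        · simp only
          rw [div_eq_iff h]; ring
        · simp only
          rw [div_eq_iff h]; ring
      right_inv := by
        intro v
        ext
        · simp only
          rw [← mul_div_assoc, ← mul_div_assoc, ← add_div, div_eq_iff h]; ring
        · simp only
          rw [← mul_div_assoc, ← mul_div_assoc, ← add_div, div_eq_iff h]; ring
      map_add' := by
        intro v w
        ext
        · simp only [Prod.fst_add, Prod.snd_add]; ring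
        · simp only [Prod.fst_add, Prod.snd_add]; ring
      map_smul' := by
        intro r v
        ext
        · simp only [Prod.smul_fst, Prod.smul_snd, smul_eq_mul, RingHom.id_apply]; ring
        · simp only [Prod.smul_fst, Prod.smul_snd, smul_eq_mul, RingHom.id_apply]; ring }
  exact ⟨E.toContinuousLinearEquiv, fun v => rfl⟩

theorem fderiv_apply' (X : ℝ × ℝ → ℝ) (q v : ℝ × ℝ) :
    fderiv ℝ X q v = dx X q * v.1 + dy X q * v.2 := by
  have : v = v.1 • ((1 : ℝ), (0 : ℝ)) + v.2 • ((0 : ℝ), (1 : ℝ)) := by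
    ext <;> simp
  conv_lhs => rw [this]
  rw [map_add, map_smul, map_smul]
  simp only [dx, dy, smul_eq_mul]
  ring

theorem dif (X Y : ℝ × ℝ → ℝ) (hX : ContDiff ℝ 1 X) (hY : ContDiff ℝ 1 Y)
    (hJ : ∀ q, dx X q * dy Y q - dy X q * dx Y q ≠ 0)
    (hb : Function.Bijective (fun q : ℝ × ℝ => (X q, Y q))) :
    ∃ φ S : ℝ × ℝ → ℝ, ContDiff ℝ 1 φ ∧ ContDiff ℝ 1 S ∧
      (∀ p, X (φ p, S p) = p.1) ∧ (∀ p, Y (φ p, S p) = p.2) ∧
      (∀ q, φ (X q, Y q) = q.1 ∧ S (X q, Y q) = q.2) := by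
  set F : ℝ × ℝ → ℝ × ℝ := fun q => (X q, Y q) with hF
  let e : (ℝ × ℝ) ≃ (ℝ × ℝ) := Equiv.ofBijective F hb
  let G : ℝ × ℝ → ℝ × ℝ := e.symm
  have hFG : ∀ p, F (G p) = p := fun p => Equiv.apply_symm_apply e p
  have hGF : ∀ q, G (F q) = q := fun q => Equiv.symm_apply_apply e q
  have hFc : ContDiff ℝ 1 F := hX.prodMk hY
  have hG : ContDiff ℝ 1 G := by
    rw [contDiff_iff_contDiffAt]
    intro p
    obtain ⟨q, rfl⟩ := hb.2 p
    obtain ⟨E, hE⟩ := exists_equiv (dx X q) (dy X q) (dx Y q) (dy Y q) (hJ q)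
    have hd : HasFDerivAt F (E : (ℝ × ℝ) →L[ℝ] (ℝ × ℝ)) q := by
      have h1 : HasFDerivAt X (fderiv ℝ X q) q :=
        (hX.differentiable (by norm_num) q).hasFDerivAt
      have h2 : HasFDerivAt Y (fderiv ℝ Y q) q :=
        (hY.differentiable (by norm_num) q).hasFDerivAt
      have h3 := h1.prodMk h2
      have h4 : (fderiv ℝ X q).prod (fderiv ℝ Y q) = (E : (ℝ × ℝ) →L[ℝ] (ℝ × ℝ)) := by
        apply ContinuousLinearMap.ext
        intro v
        rw [ContinuousLinearMap.prod_apply, fderiv_apply', fderiv_apply']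
        exact (hE v).symm
      rw [← h4]
      exact h3
    have hc : ContDiffAt ℝ 1 F q := hFc.contDiffAt
    have hn : (1 : WithTop ℕ∞) ≠ 0 := by norm_num
    have h5 : ContDiffAt ℝ 1 (hc.localInverse hd hn) (F q) := hc.to_localInverse hd hn
    refine h5.congr_of_eventuallyEq ?_
    have hs : HasStrictFDerivAt F (E : (ℝ × ℝ) →L[ℝ] (ℝ × ℝ)) q := hc.hasStrictFDerivAt' hd hn
    have h6 := hs.eventually_right_inverse
    filter_upwards [h6] with y hy
    have h7 : F (G y) = F (hs.localInverse F E q y) := by rw [hFG, hy]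
    exact hb.1 h7
  refine ⟨fun p => (G p).1, fun p => (G p).2, hG.fst, hG.snd, ?_, ?_, ?_⟩
  · intro p
    exact congrArg Prod.fst (hFG p)
  · intro p
    exact congrArg Prod.snd (hFG p)
  · intro q
    exact ⟨congrArg Prod.fst (hGF q), congrArg Prod.snd (hGF q)⟩

theorem comp_deriv (X φ S : ℝ × ℝ → ℝ) (hX : ContDiff ℝ 1 X) (hφ : ContDiff ℝ 1 φ)
    (hS : ContDiff ℝ 1 S) (p v : ℝ × ℝ) :
    fderiv ℝ (fun p => X (φ p, S p)) p v =
      dx X (φ p, S p) * fderiv ℝ φ p v + dy X (φ p, S p) * fderiv ℝ S p v := by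
  have h1 : HasFDerivAt X (fderiv ℝ X (φ p, S p)) (φ p, S p) :=
    (hX.differentiable (by norm_num) _).hasFDerivAt
  have h2 : HasFDerivAt φ (fderiv ℝ φ p) p :=
    (hφ.differentiable (by norm_num) _).hasFDerivAt
  have h3 : HasFDerivAt S (fderiv ℝ S p) p :=
    (hS.differentiable (by norm_num) _).hasFDerivAt
  have h4 : HasFDerivAt (fun p => X (φ p, S p))
      ((fderiv ℝ X (φ p, S p)).comp ((fderiv ℝ φ p).prod (fderiv ℝ S p))) p :=
    HasFDerivAt.comp (g := X) (f := fun p => (φ p, S p)) p h1 (h2.prodMk h3)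
  rw [h4.fderiv, ContinuousLinearMap.comp_apply, fderiv_apply', ContinuousLinearMap.prod_apply]

theorem alg (E E' a b px py sx sy : ℝ) (hE : E * E' = 1) (ha : 0 < a)
    (h1 : -(E' * b) * px + a * sx = 1) (h2 : E * a * px + b * sx = 0)
    (h3 : -(E' * b) * py + a * sy = 0) (h4 : E * a * py + b * sy = 1) :
    sx = E * py ∧ sy = -(E' * px) := by
  have hD : a ^ 2 + b ^ 2 * E' ^ 2 ≠ 0 := by positivity
  constructor
  · apply mul_left_cancel₀ hD
    have e1 : (a ^ 2 + b ^ 2 * E' ^ 2) * sx = a := by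
      linear_combination a * h1 + E' ^ 2 * b * h2 - E' * a * b * px * hE
    have e2 : (a ^ 2 + b ^ 2 * E' ^ 2) * (E * py) = a := by
      linear_combination a * h4 - b * h3 + E' * b ^ 2 * py * hE
    rw [e1, e2]
  · apply mul_left_cancel₀ hD
    have e1 : (a ^ 2 + b ^ 2 * E' ^ 2) * sy = b * E' ^ 2 := by
      linear_combination a * h3 + E' ^ 2 * b * h4 - E' * a * b * py * hE
    have e2 : (a ^ 2 + b ^ 2 * E' ^ 2) * (-(E' * px)) = b * E' ^ 2 := by
      have e3 : (E' * b ^ 2 + E * a ^ 2) * px = -b := by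
        linear_combination -b * h1 + a * h2
      linear_combination -E' ^ 2 * e3 + E' * a ^ 2 * px * hE
    rw [e1, e2]

end Pool.Agent.H629R2.EV.DIFaux

namespace Pool.Agent.H629R2.EV

open Filter Topology Pool.Agent.H629R2.EU

theorem DIF_proof : DIF_stmt := by
  intro X Y hX hY hJ hb
  obtain ⟨φ, S, h1, h2, h3, h4, h5⟩ := DIFaux.dif X Y hX hY hJ hb
  exact ⟨φ, S, h1, h2, fun q => (h5 q).1, fun q => (h5 q).2,
    fun p => Prod.ext (h3 p) (h4 p)⟩

theorem HOD_proof (hD : DIF_stmt) : HOD_stmt := by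
  intro X Y hX hY hXs hYs hpos hb
  have hJ : ∀ q, dx X q * dy Y q - dy X q * dx Y q ≠ 0 := by
    intro q
    rw [hXs, hYs]
    have h1 := hpos q
    have h2 := Real.exp_pos q.1
    have h3 := Real.exp_pos (-q.1)
    have h4 : 0 < Real.exp q.1 * (dy X q) ^ 2 := by positivity
    have h5 : 0 ≤ Real.exp (-q.1) * (dy Y q) ^ 2 := by positivity
    nlinarith
  obtain ⟨φ, S, hφ, hS, h1, h2, h3⟩ := hD X Y hX hY hJ hb
  refine ⟨φ, S, hφ, hS, h1, h2, ?_⟩
  have hXp : (fun p => X (φ p, S p)) = Prod.fst := funext fun p => congrArg Prod.fst (h3 p)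
  have hYp : (fun p => Y (φ p, S p)) = Prod.snd := funext fun p => congrArg Prod.snd (h3 p)
  have key : ∀ p, dx S p = Real.exp (φ p) * dy φ p ∧
      dy S p = -(Real.exp (-φ p) * dx φ p) := by
    intro p
    have a1 := DIFaux.comp_deriv X φ S hX hφ hS p (1, 0)
    have a2 := DIFaux.comp_deriv Y φ S hY hφ hS p (1, 0)
    have a3 := DIFaux.comp_deriv X φ S hX hφ hS p (0, 1)
    have a4 := DIFaux.comp_deriv Y φ S hY hφ hS p (0, 1)
    rw [hXp, hXs, fderiv_fst] at a1 a3
    rw [hYp, hYs, fderiv_snd] at a2 a4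
    simp only [ContinuousLinearMap.coe_fst', ContinuousLinearMap.coe_snd'] at a1 a2 a3 a4
    apply DIFaux.alg (Real.exp (φ p)) (Real.exp (-φ p)) (dy X (φ p, S p)) (dy Y (φ p, S p))
    · rw [← Real.exp_add]; simp
    · exact hpos _
    · exact a1.symm
    · exact a2.symm
    · exact a3.symm
    · exact a4.symm
  exact ⟨fun p => (key p).1, fun p => (key p).2⟩

end Pool.Agent.H629R2.EV
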