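import Pool.Agent.H629R2.EV.Stubs

/-! IND: the parameters are determined by `famX`. -/

set_option autoImplicit false

namespace Pool.Agent.H629R2.EV

open Set Pool.Agent.H629R2.EU

namespace INDaux

/-- The exponential character with exponent `p`. -/
noncomputable def chr (p : ℝ × ℝ) : Multiplicative (ℝ × ℝ) →* ℝ where
  toFun x := Real.exp (p.1 * (Multiplicative.toAdd x).1 + p.2 * (Multiplicative.toAdd x).2)
  map_one' := by simp
  map_mul' x y := by
    rw [← Real.exp_add]
    congr 1
    simp only [toAdd_mul, Prod.fst_add, Prod.snd_add]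
    ring

theorem chr_inj : Function.Injective chr := by
  intro p q h
  have h1 := DFunLike.congr_fun h (Multiplicative.ofAdd ((1 : ℝ), (0 : ℝ)))
  have h2 := DFunLike.congr_fun h (Multiplicative.ofAdd ((0 : ℝ), (1 : ℝ)))
  simp only [chr, MonoidHom.coe_mk, OneHom.coe_mk, toAdd_ofAdd, mul_one, mul_zero, add_zero,
    zero_add] at h1 h2
  exact Prod.ext (Real.exp_injective h1) (Real.exp_injective h2)

theorem exp_li {ι : Type*} [Fintype ι] (p : ι → ℝ × ℝ) (hp : Function.Injective p) (c : ι → ℝ)
    (h : ∀ s t : ℝ, ∑ i, c i * Real.exp ((p i).1 * s + (p i).2 * t) = 0) : ∀ i, c i = 0 := by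
  have h1 := (linearIndependent_monoidHom (Multiplicative (ℝ × ℝ)) ℝ).comp (fun i => chr (p i))
    (fun i j hij => hp (chr_inj hij))
  rw [Fintype.linearIndependent_iff] at h1
  apply h1 c
  funext x
  have h2 := h (Multiplicative.toAdd x).1 (Multiplicative.toAdd x).2
  rw [Finset.sum_apply]
  simpa [chr] using h2

end INDaux

open INDaux

theorem IND_proof (hSYS : SYS_stmt) : IND_stmt := by
  intro n c0 c1 c0' c1' c c' ν ω h h' hinj heq
  have hd := (hSYS n c0 c1 c ν ω h).2.2.1
  have hd' := (hSYS n c0' c1' c' ν ω h').2.2.1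
  have hω : ∀ j, ω j ≠ 0 := by
    intro j h0
    have h1 := h.2.2.2.2 j
    obtain ⟨h2, h3⟩ := h.2.2.2.1 j
    rw [h0] at h1
    have h4 : 0 < ν j * (1 - ν j) := mul_pos h2 (by linarith)
    nlinarith
  let p : Option (Option (Fin n)) → ℝ × ℝ := fun o =>
    o.elim (0, 0) (fun o' => o'.elim (-1, 0) (fun j => (-ν j, ω j)))
  let d : Option (Option (Fin n)) → ℝ := fun o =>
    o.elim (c0 - c0') (fun o' => o'.elim (c1 - c1') (fun j => c j - c' j))
  have hp : Function.Injective p := by
    rintro (_ | (_ | i)) (_ | (_ | j)) hij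
    · rfl
    · have h1 := congrArg Prod.fst hij
      simp [p] at h1
    · have h1 := congrArg Prod.snd hij
      simp only [p, Option.elim] at h1
      exact absurd h1.symm (hω j)
    · have h1 := congrArg Prod.fst hij
      simp [p] at h1
    · rfl
    · have h1 := congrArg Prod.snd hij
      simp only [p, Option.elim] at h1
      exact absurd h1.symm (hω j)
    · have h1 := congrArg Prod.snd hij
      simp only [p, Option.elim] at h1
      exact absurd h1 (hω i)
    · have h1 := congrArg Prod.snd hij
      simp only [p, Option.elim] at h1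
      exact absurd h1 (hω i)
    · have h1 := congrArg Prod.fst hij
      have h2 := congrArg Prod.snd hij
      simp only [p, Option.elim] at h1 h2
      have h3 : (fun j => (ν j, ω j)) i = (fun j => (ν j, ω j)) j :=
        Prod.ext (neg_injective h1) h2
      rw [hinj h3]
  have hz : ∀ o, d o = 0 := by
    apply exp_li p hp d
    intro s t
    have h1 := hd (s, t)
    have h2 := hd' (s, t)
    rw [heq, h2] at h1
    rw [Fintype.sum_option, Fintype.sum_option]
    simp only [p, d, Option.elim, zero_mul, add_zero, Real.exp_zero, mul_one, neg_mul, one_mul,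
      sub_mul, Finset.sum_sub_distrib]
    simp only at h1
    linarith
  refine ⟨sub_eq_zero.1 (hz none), sub_eq_zero.1 (hz (some none)), ?_⟩
  funext j
  exact sub_eq_zero.1 (hz (some (some j)))

end Pool.Agent.H629R2.EV
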