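import Mathlib
import Pool.Agent.H629R2.EV.Stubs

/-! Task PL (helper265): the Poincare lemma in the plane. -/

set_option autoImplicit false

namespace Pool.Agent.H629R2.EV

open Pool.Agent.H629R2.EU

/-- the 1-form `P dx + Q dy` -/
noncomputable def PL.om (P Q : ℝ × ℝ → ℝ) (p : ℝ × ℝ) : ℝ × ℝ →L[ℝ] ℝ :=
  P p • ContinuousLinearMap.fst ℝ ℝ ℝ + Q p • ContinuousLinearMap.snd ℝ ℝ ℝ

theorem PL_proof : PL_stmt := by
  intro P Q hP hQ hPQ
  have hom : ContDiff ℝ 1 (PL.om P Q) := by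
    unfold PL.om
    exact (hP.smul contDiff_const).add (hQ.smul contDiff_const)
  have hdom : ∀ p, HasFDerivAt (PL.om P Q)
      ((fderiv ℝ P p).smulRight (ContinuousLinearMap.fst ℝ ℝ ℝ) +
        (fderiv ℝ Q p).smulRight (ContinuousLinearMap.snd ℝ ℝ ℝ)) p := by
    intro p
    have h1 := ((hP.differentiable one_ne_zero) p).hasFDerivAt
    have h2 := ((hQ.differentiable one_ne_zero) p).hasFDerivAt
    exact (h1.smul_const (ContinuousLinearMap.fst ℝ ℝ ℝ)).add
      (h2.smul_const (ContinuousLinearMap.snd ℝ ℝ ℝ))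
  have hexp : ∀ (f : ℝ × ℝ → ℝ) (p x : ℝ × ℝ),
      fderiv ℝ f p x = x.1 * dx f p + x.2 * dy f p := by
    intro f p x
    have e : x = x.1 • ((1 : ℝ), (0 : ℝ)) + x.2 • ((0 : ℝ), (1 : ℝ)) := by
      ext <;> simp
    conv_lhs => rw [e]
    rw [map_add, map_smul, map_smul]
    rfl
  obtain ⟨w, hw⟩ := convex_univ.exists_forall_hasFDerivAt_of_fderiv_symmetric
    (ω := PL.om P Q) isOpen_univ (hom.differentiable one_ne_zero).differentiableOn (by
      intro a _ x y
      rw [(hdom a).fderiv]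
      show fderiv ℝ P a x * y.1 + fderiv ℝ Q a x * y.2 = fderiv ℝ P a y * x.1 + fderiv ℝ Q a y * x.2
      rw [hexp P a x, hexp Q a x, hexp P a y, hexp Q a y, hPQ a]
      ring)
  have hw' : ∀ p, HasFDerivAt w (PL.om P Q p) p := fun p => hw p (Set.mem_univ p)
  have hfd : fderiv ℝ w = PL.om P Q := by
    funext p
    exact (hw' p).fderiv
  refine ⟨w, ?_, ?_, ?_⟩
  · have h2 : (2 : WithTop ℕ∞) = 1 + 1 := by norm_num
    rw [h2, contDiff_succ_iff_fderiv]
    refine ⟨fun p => (hw' p).differentiableAt, ?_, ?_⟩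
    · intro h
      exact absurd h (by decide)
    · rw [hfd]; exact hom
  · funext p
    unfold dx
    rw [hfd]
    simp [PL.om]
  · funext p
    unfold dy
    rw [hfd]
    simp [PL.om]

end Pool.Agent.H629R2.EV
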