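import Mathlib
import Pool.Agent.H629R2.EV.Stubs

set_option autoImplicit false

/-! POT: potentials. -/

namespace Pool.Agent.H629R2.EV

open Set Pool.Agent.H629R2.EU

theorem POT_dx_exp {f : ℝ × ℝ → ℝ} (hf : ContDiff ℝ 1 f) (p : ℝ × ℝ) :
    dx (fun q => Real.exp (f q)) p = Real.exp (f p) * dx f p := by
  have hd : DifferentiableAt ℝ f p := (hf.differentiable (by norm_num)) p
  unfold dx
  rw [fderiv_exp hd]
  simp

theorem POT_dy_exp {f : ℝ × ℝ → ℝ} (hf : ContDiff ℝ 1 f) (p : ℝ × ℝ) :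
    dy (fun q => Real.exp (f q)) p = Real.exp (f p) * dy f p := by
  have hd : DifferentiableAt ℝ f p := (hf.differentiable (by norm_num)) p
  unfold dy
  rw [fderiv_exp hd]
  simp

theorem POT_dx_neg (f : ℝ × ℝ → ℝ) (p : ℝ × ℝ) : dx (fun q => -f q) p = -dx f p := by
  unfold dx
  have : (fun q => -f q) = -f := rfl
  rw [this, fderiv_neg]
  simp

theorem POT_proof (hP : PL_stmt) : POT_stmt := by
  intro φ S hφ hS h1 h2
  obtain ⟨p, hp, hpx, hpy⟩ := hP (fun q => Real.exp (φ q)) S hφ.exp hS (by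
    intro q
    rw [POT_dy_exp hφ, h1])
  obtain ⟨r, hr, hrx, hry⟩ := hP S (fun q => Real.exp (-φ q)) hS hφ.neg.exp (by
    intro q
    rw [POT_dx_exp (f := fun q => -φ q) hφ.neg, POT_dx_neg, h2]
    ring)
  obtain ⟨u, hu, hux, huy⟩ := hP p r (hp.of_le (by norm_num)) (hr.of_le (by norm_num)) (by
    intro q
    rw [hpy, hrx])
  have e1 : ∀ q, dx (dx u) q = Real.exp (φ q) := by
    intro q; rw [hux, hpx]
  have e2 : ∀ q, dy (dy u) q = Real.exp (-φ q) := by
    intro q; rw [huy, hry]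
  refine ⟨u, ⟨hu, ?_, ?_, ?_⟩, e1, ?_, e2⟩
  · intro q; rw [e1]; positivity
  · intro q; rw [e2]; positivity
  · intro q; rw [e1, e2, ← Real.exp_add]; simp
  · intro q; rw [huy, hrx]

end Pool.Agent.H629R2.EV
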