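import Pool.Agent.H629R2.EV.Stubs

set_option autoImplicit false

/-! The explicit family solves the linear hodograph system. -/

namespace Pool.Agent.H629R2.EV

open Set Pool.Agent.H629R2.EU

namespace SYSx

/-- `f` has partial derivatives `a`, `b` at `q` (and is differentiable there). -/
def HD (f : ℝ × ℝ → ℝ) (a b : ℝ) (q : ℝ × ℝ) : Prop :=
  HasFDerivAt f (a • ContinuousLinearMap.fst ℝ ℝ ℝ + b • ContinuousLinearMap.snd ℝ ℝ ℝ) q

lemma HD.dx {f : ℝ × ℝ → ℝ} {a b : ℝ} {q : ℝ × ℝ} (h : HD f a b q) :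
    Pool.Agent.H629R2.EU.dx f q = a := by
  unfold Pool.Agent.H629R2.EU.dx
  rw [HasFDerivAt.fderiv h]
  simp

lemma HD.dy {f : ℝ × ℝ → ℝ} {a b : ℝ} {q : ℝ × ℝ} (h : HD f a b q) :
    Pool.Agent.H629R2.EU.dy f q = b := by
  unfold Pool.Agent.H629R2.EU.dy
  rw [HasFDerivAt.fderiv h]
  simp

lemma HD.congr {f : ℝ × ℝ → ℝ} {a b a' b' : ℝ} {q : ℝ × ℝ} (h : HD f a b q) (ha : a = a')
    (hb : b = b') : HD f a' b' q := by
  subst ha; subst hb; exact h

lemma hfst (q : ℝ × ℝ) : HD (fun q => q.1) 1 0 q := by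
  unfold HD
  have : ((1 : ℝ) • ContinuousLinearMap.fst ℝ ℝ ℝ + (0 : ℝ) • ContinuousLinearMap.snd ℝ ℝ ℝ)
    = ContinuousLinearMap.fst ℝ ℝ ℝ := by
    rw [one_smul, zero_smul, add_zero]
  rw [this]
  exact hasFDerivAt_fst

lemma hsnd (q : ℝ × ℝ) : HD (fun q => q.2) 0 1 q := by
  unfold HD
  have : ((0 : ℝ) • ContinuousLinearMap.fst ℝ ℝ ℝ + (1 : ℝ) • ContinuousLinearMap.snd ℝ ℝ ℝ)
    = ContinuousLinearMap.snd ℝ ℝ ℝ := by
    rw [one_smul, zero_smul, zero_add]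
  rw [this]
  exact hasFDerivAt_snd

lemma hadd {f g : ℝ × ℝ → ℝ} {a b a' b' : ℝ} {q : ℝ × ℝ} (h : HD f a b q) (h' : HD g a' b' q) :
    HD (fun q => f q + g q) (a + a') (b + b') q := by
  unfold HD at *
  refine (HasFDerivAt.fun_add h h').congr_fderiv ?_
  rw [add_smul, add_smul]
  abel

lemma hmulc (k : ℝ) {f : ℝ × ℝ → ℝ} {a b : ℝ} {q : ℝ × ℝ} (h : HD f a b q) :
    HD (fun q => k * f q) (k * a) (k * b) q := by
  unfold HD at *
  refine (HasFDerivAt.const_mul h k).congr_fderiv ?_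
  rw [smul_add, smul_smul, smul_smul]

lemma hmul {f g : ℝ × ℝ → ℝ} {a b a' b' : ℝ} {q : ℝ × ℝ} (h : HD f a b q) (h' : HD g a' b' q) :
    HD (fun q => f q * g q) (f q * a' + g q * a) (f q * b' + g q * b) q := by
  unfold HD at *
  refine (HasFDerivAt.fun_mul h h').congr_fderiv ?_
  simp only [smul_add, smul_smul, add_smul]
  abel

lemma hexp {f : ℝ × ℝ → ℝ} {a b : ℝ} {q : ℝ × ℝ} (h : HD f a b q) :
    HD (fun q => Real.exp (f q)) (Real.exp (f q) * a) (Real.exp (f q) * b) q := by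
  unfold HD at *
  refine (HasFDerivAt.exp h).congr_fderiv ?_
  rw [smul_add, smul_smul, smul_smul]

lemma hsum {n : ℕ} {f : Fin n → ℝ × ℝ → ℝ} {a b : Fin n → ℝ} {q : ℝ × ℝ}
    (h : ∀ j, HD (f j) (a j) (b j) q) :
    HD (fun q => ∑ j, f j q) (∑ j, a j) (∑ j, b j) q := by
  unfold HD at *
  refine (HasFDerivAt.fun_sum (u := Finset.univ) (fun j _ => h j)).congr_fderiv ?_
  rw [Finset.sum_add_distrib, Finset.sum_smul, Finset.sum_smul]

lemma hX (n : ℕ) (c0 c1 : ℝ) (c ν ω : Fin n → ℝ) (q : ℝ × ℝ) :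
    HD (famX n c0 c1 c ν ω)
      (c0 * 0 + c1 * (q.2 * (Real.exp (-1 * q.1) * (-1 * 1)) + Real.exp (-1 * q.1) * 0) +
        ∑ j, c j / ω j * (Real.exp (-ν j * q.1 + ω j * q.2) * (-ν j * 1 + ω j * 0)))
      (c0 * 1 + c1 * (q.2 * (Real.exp (-1 * q.1) * (-1 * 0)) + Real.exp (-1 * q.1) * 1) +
        ∑ j, c j / ω j * (Real.exp (-ν j * q.1 + ω j * q.2) * (-ν j * 0 + ω j * 1))) q := by
  have h1 : famX n c0 c1 c ν ω = fun q => (c0 * q.2 + c1 * (q.2 * Real.exp (-1 * q.1))) +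
    ∑ j, c j / ω j * Real.exp (-ν j * q.1 + ω j * q.2) := by
    funext q
    unfold famX
    simp only [neg_mul, one_mul]
  rw [h1]
  exact hadd (hadd (hmulc c0 (hsnd q)) (hmulc c1 (hmul (hsnd q) (hexp (hmulc (-1) (hfst q))))))
    (hsum (fun j => hmulc (c j / ω j) (hexp (hadd (hmulc (-ν j) (hfst q)) (hmulc (ω j) (hsnd q))))))

lemma hY (n : ℕ) (c0 c1 : ℝ) (c ν ω : Fin n → ℝ) (q : ℝ × ℝ) :
    HD (famY n c0 c1 c ν ω)
      (c0 * (Real.exp q.1 * 1) + c1 * (1 + 1 / 2 * (q.2 * 0 + q.2 * 0)) +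
        ∑ j, c j / (1 - ν j) * (Real.exp ((1 - ν j) * q.1 + ω j * q.2) *
          ((1 - ν j) * 1 + ω j * 0)))
      (c0 * (Real.exp q.1 * 0) + c1 * (0 + 1 / 2 * (q.2 * 1 + q.2 * 1)) +
        ∑ j, c j / (1 - ν j) * (Real.exp ((1 - ν j) * q.1 + ω j * q.2) *
          ((1 - ν j) * 0 + ω j * 1))) q := by
  have h1 : famY n c0 c1 c ν ω = fun q => (c0 * Real.exp q.1 + c1 * (q.1 + 1 / 2 * (q.2 * q.2))) +
    ∑ j, c j / (1 - ν j) * Real.exp ((1 - ν j) * q.1 + ω j * q.2) := by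
    funext q
    unfold famY
    have : q.2 ^ 2 / 2 = 1 / 2 * (q.2 * q.2) := by ring
    rw [this]
  rw [h1]
  exact hadd (hadd (hmulc c0 (hexp (hfst q)))
    (hmulc c1 (hadd (hfst q) (hmulc (1 / 2) (hmul (hsnd q) (hsnd q))))))
    (hsum (fun j => hmulc (c j / (1 - ν j))
      (hexp (hadd (hmulc (1 - ν j) (hfst q)) (hmulc (ω j) (hsnd q))))))

lemma smX (n : ℕ) (c0 c1 : ℝ) (c ν ω : Fin n → ℝ) : ContDiff ℝ 1 (famX n c0 c1 c ν ω) := by
  unfold famX
  fun_prop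

lemma smY (n : ℕ) (c0 c1 : ℝ) (c ν ω : Fin n → ℝ) : ContDiff ℝ 1 (famY n c0 c1 c ν ω) := by
  unfold famY
  fun_prop

end SYSx

open SYSx in
theorem SYS_proof : SYS_stmt := by
  intro n c0 c1 c ν ω hA
  obtain ⟨_, _, _, hν, hω⟩ := hA
  have hω0 : ∀ j, ω j ≠ 0 := by
    intro j h0
    have h1 := hω j
    rw [h0] at h1
    have h2 : 0 < ν j * (1 - ν j) := mul_pos (hν j).1 (by linarith [(hν j).2])
    rw [← h1] at h2
    norm_num at h2
  have h1ν : ∀ j, 1 - ν j ≠ 0 := by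
    intro j
    have := (hν j).2
    exact ne_of_gt (by linarith)
  refine ⟨smX n c0 c1 c ν ω, smY n c0 c1 c ν ω, ?_, ?_, ?_⟩
  · intro q
    rw [(hX n c0 c1 c ν ω q).dy]
    have h1 : ∀ j, c j / ω j * (Real.exp (-ν j * q.1 + ω j * q.2) * (-ν j * 0 + ω j * 1)) =
      c j * Real.exp (-(ν j * q.1) + ω j * q.2) := by
      intro j
      have := hω0 j
      rw [neg_mul]
      field_simp
      ring
    rw [Finset.sum_congr rfl (fun j _ => h1 j)]
    rw [neg_one_mul]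
    ring
  · intro q
    rw [(hX n c0 c1 c ν ω q).dx, (hY n c0 c1 c ν ω q).dy]
    have h1 : ∀ j, c j / ω j * (Real.exp (-ν j * q.1 + ω j * q.2) * (-ν j * 1 + ω j * 0)) =
      -(Real.exp (-q.1) * (c j / (1 - ν j) * (Real.exp ((1 - ν j) * q.1 + ω j * q.2) *
          ((1 - ν j) * 0 + ω j * 1)))) := by
      intro j
      have h2 := hω0 j
      have h3 := h1ν j
      have h4 : Real.exp ((1 - ν j) * q.1 + ω j * q.2) =
        Real.exp q.1 * Real.exp (-ν j * q.1 + ω j * q.2) := by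
        rw [← Real.exp_add]; congr 1; ring
      have h5 : Real.exp (-q.1) * Real.exp q.1 = 1 := by
        rw [← Real.exp_add]; simp
      have h6 : ν j / ω j = ω j / (1 - ν j) := by
        rw [div_eq_div_iff h2 h3]
        have := hω j
        rw [← this]; ring
      rw [h4]
      calc c j / ω j * (Real.exp (-ν j * q.1 + ω j * q.2) * (-ν j * 1 + ω j * 0))
          = -(c j * (ν j / ω j) * Real.exp (-ν j * q.1 + ω j * q.2)) := by ring
        _ = -(c j * (ω j / (1 - ν j)) * Real.exp (-ν j * q.1 + ω j * q.2)) := by rw [h6]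
        _ = -((Real.exp (-q.1) * Real.exp q.1) * (c j * (ω j / (1 - ν j)) *
              Real.exp (-ν j * q.1 + ω j * q.2))) := by rw [h5, one_mul]
        _ = _ := by ring
    rw [Finset.sum_congr rfl (fun j _ => h1 j), Finset.sum_neg_distrib, ← Finset.mul_sum,
      neg_one_mul]
    ring
  · intro q
    rw [(hY n c0 c1 c ν ω q).dx, (hX n c0 c1 c ν ω q).dy]
    have h1 : ∀ j, c j / (1 - ν j) * (Real.exp ((1 - ν j) * q.1 + ω j * q.2) *
          ((1 - ν j) * 1 + ω j * 0)) =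
      Real.exp q.1 * (c j / ω j * (Real.exp (-ν j * q.1 + ω j * q.2) * (-ν j * 0 + ω j * 1))) := by
      intro j
      have h2 := hω0 j
      have h3 := h1ν j
      have h4 : Real.exp ((1 - ν j) * q.1 + ω j * q.2) =
        Real.exp q.1 * Real.exp (-ν j * q.1 + ω j * q.2) := by
        rw [← Real.exp_add]; congr 1; ring
      rw [h4]
      field_simp
      ring
    rw [Finset.sum_congr rfl (fun j _ => h1 j), ← Finset.mul_sum]
    have h5 : Real.exp q.1 * Real.exp (-1 * q.1) = 1 := by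
      rw [← Real.exp_add]; simp
    have h6 : Real.exp q.1 * (c0 * 1 + c1 * (q.2 * (Real.exp (-1 * q.1) * (-1 * 0)) +
        Real.exp (-1 * q.1) * 1) +
        ∑ j, c j / ω j * (Real.exp (-ν j * q.1 + ω j * q.2) * (-ν j * 0 + ω j * 1))) =
      c0 * Real.exp q.1 + c1 * (Real.exp q.1 * Real.exp (-1 * q.1)) + Real.exp q.1 *
        ∑ j, c j / ω j * (Real.exp (-ν j * q.1 + ω j * q.2) * (-ν j * 0 + ω j * 1)) := by ring
    rw [h6, h5]
    ring

end Pool.Agent.H629R2.EV
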